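import Mathlib

/-!
# The gcd recursion of Goldbach type: the tree of large jumps
-/

set_option autoImplicit false

namespace R754.QL

open Finset

/-- coprime pairs below a line -/
def P (K k k' : ℕ) : Finset (ℕ × ℕ) :=
  ((Ioc 0 K) ×ˢ (Ioc 0 K)).filter (fun p => Nat.Coprime p.1 p.2 ∧ p.1 * k + p.2 * k' ≤ K)

theorem P_rec (K k k' : ℕ) :
    (P K k k').card ≤ 1 + (P K k (k + k')).card + (P K (k + k') k').card := by
  have hsub : P K k k' ⊆ {(1, 1)} ∪ (P K k (k + k')).image (fun p => (p.1 + p.2, p.2)) ∪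
      (P K (k + k') k').image (fun p => (p.1, p.1 + p.2)) := by
    rintro ⟨u, v⟩ h
    simp only [P, mem_filter, mem_product, mem_Ioc] at h
    obtain ⟨⟨⟨hu1, hu2⟩, hv1, hv2⟩, hc, hle⟩ := h
    rw [mem_union, mem_union, mem_singleton, mem_image, mem_image]
    rcases lt_trichotomy u v with h | h | h
    · right
      refine ⟨(u, v - u), ?_, ?_⟩
      · simp only [P, mem_filter, mem_product, mem_Ioc]
        refine ⟨⟨⟨hu1, hu2⟩, by omega, by omega⟩, ?_, ?_⟩
        · exact (Nat.coprime_sub_self_right h.le).mpr hc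
        · obtain ⟨d, rfl⟩ : ∃ d, v = u + d := ⟨v - u, by omega⟩
          have e : u + d - u = d := by omega
          rw [e]
          calc u * (k + k') + d * k' = u * k + (u + d) * k' := by ring
            _ ≤ K := hle
      · exact Prod.ext rfl (by show u + (v - u) = v; omega)
    · left; left
      subst h
      rw [Nat.coprime_self] at hc
      rw [hc]
    · left; right
      refine ⟨(u - v, v), ?_, ?_⟩
      · simp only [P, mem_filter, mem_product, mem_Ioc]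
        refine ⟨⟨⟨by omega, by omega⟩, hv1, hv2⟩, ?_, ?_⟩
        · exact (Nat.coprime_sub_self_left h.le).mpr hc
        · obtain ⟨d, rfl⟩ : ∃ d, u = v + d := ⟨u - v, by omega⟩
          have e : v + d - v = d := by omega
          rw [e]
          calc d * k + v * (k + k') = (v + d) * k + v * k' := by ring
            _ ≤ K := hle
      · exact Prod.ext (by show u - v + v = u; omega) rfl
  refine (card_le_card hsub).trans ((card_union_le _ _).trans ?_)
  refine Nat.add_le_add ((card_union_le _ _).trans ?_) card_image_le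
  exact Nat.add_le_add (by simp) card_image_le

theorem P_empty {K k k' : ℕ} (h : K < k + k') : (P K k k').card = 0 := by
  rw [card_eq_zero, P, filter_eq_empty_iff]
  rintro ⟨u, v⟩ hp ⟨-, hle⟩
  rw [mem_product, mem_Ioc, mem_Ioc] at hp
  have h1 : 1 * k ≤ u * k := Nat.mul_le_mul_right k hp.1.1
  have h2 : 1 * k' ≤ v * k' := Nat.mul_le_mul_right k' hp.2.1
  simp only at hle
  omega

theorem sum_inv_sq (M : ℕ) : ∑ d ∈ Icc 2 M, (1 : ℝ) / (d : ℝ) ^ 2 ≤ 3 / 4 := by
  rcases Nat.lt_or_ge M 2 with h | h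
  · rw [Icc_eq_empty (by omega), sum_empty]; norm_num
  · have key : ∑ d ∈ Icc 2 M, (1 : ℝ) / (d : ℝ) ^ 2 ≤ 3 / 4 - 1 / M := by
      induction M, h using Nat.le_induction with
      | base => norm_num
      | succ M hM ih =>
        rw [sum_Icc_succ_top (by omega)]
        have hM' : (0 : ℝ) < M := by exact_mod_cast (by omega : 0 < M)
        have h1 : (1 : ℝ) / ((M + 1 : ℕ) : ℝ) ^ 2 ≤ 1 / M - 1 / ((M + 1 : ℕ) : ℝ) := by
          push_cast
          rw [div_sub_div _ _ hM'.ne' (by positivity), div_le_div_iff₀ (by positivity)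
            (by positivity)]
          nlinarith
        linarith
    have : (0 : ℝ) ≤ 1 / M := by positivity
    linarith

theorem coprime_count (M : ℕ) :
    (M : ℝ) ^ 2 / 4 ≤ (((Ioc 0 M) ×ˢ (Ioc 0 M)).filter
      (fun p : ℕ × ℕ => Nat.Coprime p.1 p.2)).card := by
  classical
  have h1 := card_filter_add_card_filter_not (s := (Ioc 0 M) ×ˢ (Ioc 0 M))
    (fun p : ℕ × ℕ => Nat.Coprime p.1 p.2)
  have h2 : ((Ioc 0 M) ×ˢ (Ioc 0 M)).filter (fun p : ℕ × ℕ => ¬ Nat.Coprime p.1 p.2) ⊆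
      (Icc 2 M).biUnion (fun d => ((Ioc 0 M).filter (fun x => d ∣ x)) ×ˢ
        ((Ioc 0 M).filter (fun x => d ∣ x))) := by
    rintro ⟨u, v⟩ h
    rw [mem_filter, mem_product] at h
    obtain ⟨⟨hu, hv⟩, hc⟩ := h
    simp only [mem_Ioc] at hu hv hc
    rw [mem_biUnion]
    refine ⟨Nat.gcd u v, ?_, ?_⟩
    · rw [mem_Icc]
      have e1 : 0 < Nat.gcd u v := Nat.gcd_pos_of_pos_left _ hu.1
      have e2 : Nat.gcd u v ≠ 1 := hc
      have e3 : Nat.gcd u v ≤ u := Nat.gcd_le_left _ hu.1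
      omega
    · simp only [mem_product, mem_filter, mem_Ioc]
      exact ⟨⟨hu, Nat.gcd_dvd_left _ _⟩, hv, Nat.gcd_dvd_right _ _⟩
  have h3 := (card_le_card h2).trans card_biUnion_le
  have h4 : ((∑ d ∈ Icc 2 M, (((Ioc 0 M).filter (fun x => d ∣ x)) ×ˢ
      ((Ioc 0 M).filter (fun x => d ∣ x))).card : ℕ) : ℝ) ≤ (M : ℝ) ^ 2 * (3 / 4) := by
    push_cast
    refine le_trans (sum_le_sum (g := fun d : ℕ => (M : ℝ) ^ 2 * (1 / (d : ℝ) ^ 2)) ?_) ?_
    · intro d hd
      rw [card_product, Nat.Ioc_filter_dvd_card_eq_div]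
      have e1 : ((M / d : ℕ) : ℝ) ≤ (M : ℝ) / d := Nat.cast_div_le
      push_cast
      calc ((M / d : ℕ) : ℝ) * ((M / d : ℕ) : ℝ) ≤ ((M : ℝ) / d) * ((M : ℝ) / d) :=
            mul_le_mul e1 e1 (by positivity) (by positivity)
        _ = (M : ℝ) ^ 2 * (1 / (d : ℝ) ^ 2) := by ring
    · rw [← mul_sum]
      exact mul_le_mul_of_nonneg_left (sum_inv_sq M) (by positivity)
  have h5 : (((Ioc 0 M) ×ˢ (Ioc 0 M)).card : ℝ) = (M : ℝ) ^ 2 := by
    rw [card_product, Nat.card_Ioc, Nat.sub_zero]; push_cast; ring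
  have h6 : ((((Ioc 0 M) ×ˢ (Ioc 0 M)).filter (fun p : ℕ × ℕ => ¬ Nat.Coprime p.1 p.2)).card : ℝ)
      ≤ (M : ℝ) ^ 2 * (3 / 4) := le_trans (by exact_mod_cast h3) h4
  have h7 : ((((Ioc 0 M) ×ˢ (Ioc 0 M)).filter (fun p : ℕ × ℕ => Nat.Coprime p.1 p.2)).card : ℝ) +
      ((((Ioc 0 M) ×ˢ (Ioc 0 M)).filter (fun p : ℕ × ℕ => ¬ Nat.Coprime p.1 p.2)).card : ℝ) =
      (M : ℝ) ^ 2 := by
    rw [← h5]
    exact_mod_cast h1
  linarith

theorem P_large (K : ℕ) : ((K / 3 : ℕ) : ℝ) ^ 2 / 4 ≤ (P K 1 2).card := by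
  refine (coprime_count (K / 3)).trans ?_
  have : ((Ioc 0 (K / 3)) ×ˢ (Ioc 0 (K / 3))).filter
      (fun p : ℕ × ℕ => Nat.Coprime p.1 p.2) ⊆ P K 1 2 := by
    rintro ⟨u, v⟩ h
    simp only [P, mem_filter, mem_product, mem_Ioc] at h ⊢
    refine ⟨⟨⟨h.1.1.1, by omega⟩, h.1.2.1, by omega⟩, h.2, by omega⟩
  exact_mod_cast card_le_card this

end R754.QL
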