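import Pool.Agent.R754.QL.A

/-!
# The gcd recursion of Goldbach type: pairs of large jumps
-/

set_option autoImplicit false

namespace R754.QL

open Finset

/-- the modulus -/
def m (N n : ℕ) : ℤ := (N : ℤ) - (-1) ^ n * ((N : ℤ) - n)

theorem m_even {N n : ℕ} (h : Even n) : m N n = n := by
  unfold m; rw [h.neg_one_pow]; ring

theorem m_odd {N n : ℕ} (h : Odd n) : m N n = 2 * N - n := by
  unfold m; rw [h.neg_one_pow]; ring

/-- the jump -/
def g (N : ℕ) (a : ℕ → ℤ) (n : ℕ) : ℤ := ((Int.gcd (a (n - 1)) (m N n) : ℕ) : ℤ)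

/-- the descent -/
structure Desc (N G : ℕ) (a : ℕ → ℤ) : Prop where
  start : a 1 = (N : ℤ) - 2
  step : ∀ n, 2 ≤ n → a n = a (n - 1) - g N a n
  pos : ∀ n, 1 ≤ n → n < G → 0 < a n
  fin : a G = 0

variable {N G : ℕ} {a : ℕ → ℤ}

theorem g_pos (h : Desc N G a) {n : ℕ} (h2 : 2 ≤ n) (hn : n ≤ G) : 1 ≤ g N a n := by
  have h1 : a (n - 1) ≠ 0 := (h.pos (n - 1) (by omega) (by omega)).ne'
  have h3 : 0 < Int.gcd (a (n - 1)) (m N n) := Int.gcd_pos_of_ne_zero_left _ h1
  unfold g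
  exact_mod_cast h3

theorem g_even {n : ℕ} (h2 : 2 ≤ n) (he : Even n) : g N a n ≤ n := by
  apply Int.le_of_dvd (by exact_mod_cast (by omega : 0 < n))
  unfold g
  have := Int.gcd_dvd_right (a := a (n - 1)) (b := m N n)
  rwa [m_even he] at this ⊢

theorem g_dvd_prev (n : ℕ) : g N a n ∣ a (n - 1) := Int.gcd_dvd_left ..

theorem g_dvd_m (n : ℕ) : g N a n ∣ m N n := Int.gcd_dvd_right ..

theorem g_dvd (h : Desc N G a) {n : ℕ} (h2 : 2 ≤ n) : g N a n ∣ a n := by
  rw [h.step n h2]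
  exact dvd_sub (g_dvd_prev n) dvd_rfl

theorem drop_ge (h : Desc N G a) {i : ℕ} (hi : 1 ≤ i) (k : ℕ) (hk : i + k ≤ G) :
    (k : ℤ) ≤ a i - a (i + k) := by
  induction k with
  | zero => simp
  | succ k ih =>
    have h1 := h.step (i + (k + 1)) (by omega)
    have h2 : 1 ≤ g N a (i + (k + 1)) := g_pos h (by omega) hk
    have h3 : i + (k + 1) - 1 = i + k := by omega
    rw [h3] at h1
    have := ih (by omega)
    push_cast
    linarith

theorem drop_le (h : Desc N G a) {q B : ℤ} {i : ℕ} (hi : 1 ≤ i) (k : ℕ)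
    (hs : ∀ l, i < l → l ≤ i + k → g N a l * q ≤ B) :
    (a i - a (i + k)) * q ≤ k * B := by
  induction k with
  | zero => simp
  | succ k ih =>
    have h1 := h.step (i + (k + 1)) (by omega)
    have h2 := hs (i + (k + 1)) (by omega) le_rfl
    have h3 : i + (k + 1) - 1 = i + k := by omega
    rw [h3] at h1
    have h4 := ih (fun l hl1 hl2 => hs l hl1 (by omega))
    push_cast
    have : (a i - a (i + (k + 1))) * q = (a i - a (i + k)) * q + g N a (i + (k + 1)) * q := by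
      rw [h1]; ring
    rw [this]
    linarith

/-- the jump, with a virtual jump of size `N` at the time `1` -/
def gg (N : ℕ) (a : ℕ → ℤ) (n : ℕ) : ℤ := if n = 1 then (N : ℤ) else g N a n

theorem pair (h : Desc N G a) {n n' : ℕ} (hn : Odd n) (hn' : Odd n') (hlt : n < n')
    (hG : n' ≤ G) (hNG : G ≤ N) :
    gg N a n * g N a n' ≤ 2 * G * (a n - a (n' - 1)) * N := by
  have h1 : 1 ≤ n := hn.pos
  have hκ : n + 2 ≤ n' := by
    obtain ⟨x, rfl⟩ := hn
    obtain ⟨y, rfl⟩ := hn'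
    omega
  have hgp : 1 ≤ g N a n' := g_pos h (by omega) hG
  have hS : ((n' - 1 - n : ℕ) : ℤ) ≤ a n - a (n' - 1) := by
    have := drop_ge h h1 (n' - 1 - n) (by omega)
    rwa [show n + (n' - 1 - n) = n' - 1 by omega] at this
  have hcast : ((n' - 1 - n : ℕ) : ℤ) = (n' : ℤ) - 1 - n := by omega
  rw [hcast] at hS
  have hNz : (0 : ℤ) < N := by exact_mod_cast (by omega : 0 < N)
  have hGz : (n' : ℤ) ≤ G := by exact_mod_cast hG
  have hκz : (n : ℤ) + 2 ≤ n' := by exact_mod_cast hκ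
  have hnz : (1 : ℤ) ≤ n := by exact_mod_cast h1
  unfold gg
  split_ifs with hn1
  · subst hn1
    obtain ⟨S, hSdef⟩ : ∃ S, S = a 1 - a (n' - 1) := ⟨_, rfl⟩
    rw [← hSdef] at hS ⊢
    push_cast at hS hκz
    have hdvd : g N a n' ∣ 2 * S + 4 - n' := by
      have e : 2 * S + 4 - n' = m N n' - 2 * a (n' - 1) := by
        rw [m_odd hn', hSdef, h.start]; ring
      rw [e]
      exact dvd_sub (g_dvd_m n') (Dvd.dvd.mul_left (g_dvd_prev n') 2)
    have hle : g N a n' ≤ 2 * S + 4 - n' := Int.le_of_dvd (by linarith) hdvd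
    have hle2 : g N a n' ≤ 2 * G * S := by
      have e1 : g N a n' ≤ 3 * S := by linarith
      have e2 : 3 * S ≤ 2 * G * S := mul_le_mul_of_nonneg_right (by linarith) (by linarith)
      linarith
    calc (N : ℤ) * g N a n' ≤ N * (2 * G * S) := mul_le_mul_of_nonneg_left hle2 hNz.le
      _ = _ := by ring
  · have hn3 : 2 ≤ n := by omega
    have hX := m_odd (N := N) hn
    have hX' := m_odd (N := N) hn'
    have hapos : 0 < a n := h.pos n h1 (by omega)
    have hdrop : (n : ℤ) - 1 ≤ a 1 - a n := by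
      have := drop_ge h (le_refl 1) (n - 1) (by omega)
      rw [show 1 + (n - 1) = n by omega] at this
      have e : ((n - 1 : ℕ) : ℤ) = (n : ℤ) - 1 := by omega
      rwa [e] at this
    rw [h.start] at hdrop
    obtain ⟨S, hSdef⟩ : ∃ S, S = a n - a (n' - 1) := ⟨_, rfl⟩
    obtain ⟨κ, hκdef⟩ : ∃ κ : ℤ, κ = (n' : ℤ) - n := ⟨_, rfl⟩
    obtain ⟨X, hXdef⟩ : ∃ X : ℤ, X = 2 * N - n := ⟨_, rfl⟩
    rw [← hSdef] at hS ⊢
    have hS1 : κ - 1 ≤ S := by linarith
    have hκ2 : 2 ≤ κ := by linarith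
    obtain ⟨E, hE⟩ : ∃ E, E = S * X - κ * a n := ⟨_, rfl⟩
    have hgX : g N a n ∣ X := by
      have := g_dvd_m (N := N) (a := a) n
      rwa [hX, ← hXdef] at this
    have hgX' : g N a n' ∣ X - κ := by
      have := g_dvd_m (N := N) (a := a) n'
      rw [hX'] at this
      have e : X - κ = 2 * (N : ℤ) - n' := by rw [hXdef, hκdef]; ring
      rwa [e]
    have hgE : g N a n ∣ E := by
      rw [hE]
      exact dvd_sub (Dvd.dvd.mul_left hgX S) (Dvd.dvd.mul_left (g_dvd h hn3) κ)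
    have hgE' : g N a n' ∣ E := by
      have e : E = S * (X - κ) - κ * a (n' - 1) := by
        rw [hE]
        have : a (n' - 1) = a n - S := by rw [hSdef]; ring
        rw [this]; ring
      rw [e]
      exact dvd_sub (Dvd.dvd.mul_left hgX' S) (Dvd.dvd.mul_left (g_dvd_prev n') κ)
    have hdvd : g N a n * g N a n' ∣ κ * E := by
      have e : κ * E = X * E - (X - κ) * E := by ring
      rw [e]
      refine dvd_sub (mul_dvd_mul hgX hgE') ?_
      rw [mul_comm (g N a n)]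
      exact mul_dvd_mul hgX' hgE
    have hX2 : 0 < X - 2 * a n := by linarith
    have hXpos : 0 < X := by linarith
    have hEpos : 0 < E := by
      have e1 : (κ - 1) * X ≤ S * X := mul_le_mul_of_nonneg_right hS1 hXpos.le
      have e2 : 0 < (κ - 1) * (X - 2 * a n) := mul_pos (by linarith) hX2
      have e3 : 0 ≤ (κ - 2) * a n := mul_nonneg (by linarith) hapos.le
      have e4 : (κ - 1) * X - κ * a n = (κ - 1) * (X - 2 * a n) + (κ - 2) * a n := by ring
      rw [hE]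
      linarith
    have hS0 : 0 ≤ S := by linarith
    have hle := Int.le_of_dvd (mul_pos (by linarith) hEpos) hdvd
    have hES : E ≤ S * (2 * N) := by
      have e1 : 0 ≤ κ * a n := mul_nonneg (by linarith) hapos.le
      have e2 : S * X ≤ S * (2 * N) := mul_le_mul_of_nonneg_left (by linarith) hS0
      rw [hE]; linarith
    calc g N a n * g N a n' ≤ κ * E := hle
      _ ≤ G * (S * (2 * N)) := mul_le_mul (by linarith) hES hEpos.le (by linarith)
      _ = _ := by ring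

/-- the level -/
def Lv (N : ℕ) (a : ℕ → ℤ) (Q : ℤ) (n k : ℕ) : Prop := (N : ℤ) ≤ gg N a n * Q ^ (k - 1)

theorem between (h : Desc N G a) {Q : ℤ} (hQ : 2 * (G : ℤ) ^ 2 < Q) (hNG : G ≤ N) {k k' n n' : ℕ}
    (hk : 1 ≤ k) (hk' : 1 ≤ k') (hK : (G : ℤ) * Q ^ (k + k' - 1) ≤ N)
    (hn : Odd n) (hn' : Odd n') (hlt : n < n') (hG : n' ≤ G)
    (l1 : Lv N a Q n k) (l2 : Lv N a Q n' k') :
    ∃ x, Odd x ∧ n < x ∧ x < n' ∧ Lv N a Q x (k + k') := by
  by_contra hcon
  push Not at hcon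
  have h1 : 1 ≤ n := hn.pos
  have hNz : (0 : ℤ) < N := by exact_mod_cast (by omega : 0 < N)
  have hGz : (0 : ℤ) < G := by exact_mod_cast (by omega : 0 < G)
  have hQ0 : 0 < Q := lt_of_le_of_lt (by positivity) hQ
  have hall : ∀ l, n < l → l ≤ n + (n' - 1 - n) → g N a l * Q ^ (k + k' - 1) ≤ N := by
    intro l hl1 hl2
    rcases Nat.even_or_odd l with he | ho
    · have e1 := g_even (N := N) (a := a) (by omega : 2 ≤ l) he
      have e2 : (l : ℤ) ≤ G := by exact_mod_cast (by omega : l ≤ G)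
      refine le_trans (mul_le_mul_of_nonneg_right (e1.trans e2) (by positivity)) hK
    · have e1 := hcon l ho hl1 (by omega)
      unfold Lv gg at e1
      rw [if_neg (by omega)] at e1
      exact (not_le.mp e1).le
  have hS := drop_le h h1 (n' - 1 - n) hall
  rw [show n + (n' - 1 - n) = n' - 1 by omega] at hS
  have hp := pair h hn hn' hlt hG hNG
  have hS2 : (a n - a (n' - 1)) * Q ^ (k + k' - 1) ≤ G * N := by
    refine hS.trans (mul_le_mul_of_nonneg_right ?_ hNz.le)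
    exact_mod_cast (by omega : n' - 1 - n ≤ G)
  unfold Lv at l1 l2
  have hgg' : gg N a n' = g N a n' := by unfold gg; rw [if_neg (by omega)]
  rw [hgg'] at l2
  have e1 : (N : ℤ) * N ≤ (gg N a n * Q ^ (k - 1)) * (g N a n' * Q ^ (k' - 1)) :=
    mul_le_mul l1 l2 hNz.le (hNz.le.trans l1)
  have e2 : (gg N a n * Q ^ (k - 1)) * (g N a n' * Q ^ (k' - 1)) * Q =
      (gg N a n * g N a n') * Q ^ (k + k' - 1) := by
    have : k + k' - 1 = (k - 1) + (k' - 1) + 1 := by omega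
    rw [this, pow_add, pow_add]; ring
  have e3 : (N : ℤ) * N * Q ≤ (gg N a n * g N a n') * Q ^ (k + k' - 1) := by
    rw [← e2]
    exact mul_le_mul_of_nonneg_right e1 hQ0.le
  have e4 : (gg N a n * g N a n') * Q ^ (k + k' - 1) ≤
      2 * G * (a n - a (n' - 1)) * N * Q ^ (k + k' - 1) :=
    mul_le_mul_of_nonneg_right hp (by positivity)
  have e5 : 2 * (G : ℤ) * (a n - a (n' - 1)) * N * Q ^ (k + k' - 1) ≤
      (2 * G * N) * (G * N) := by
    calc 2 * (G : ℤ) * (a n - a (n' - 1)) * N * Q ^ (k + k' - 1) =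
          (2 * G * N) * ((a n - a (n' - 1)) * Q ^ (k + k' - 1)) := by ring
      _ ≤ _ := mul_le_mul_of_nonneg_left hS2 (by positivity)
  have e6 : (N : ℤ) * N * Q ≤ (N * N) * (2 * (G : ℤ) ^ 2) := by
    calc (N : ℤ) * N * Q ≤ (2 * G * N) * (G * N) := e3.trans (e4.trans e5)
      _ = _ := by ring
  have e7 := le_of_mul_le_mul_left e6 (by positivity)
  linarith

theorem gap (h : Desc N G a) {Q : ℤ} (hQ : 2 * (G : ℤ) ^ 2 < Q) (hNG : G ≤ N) (K : ℕ)
    (hK : (G : ℤ) * Q ^ (K - 1) ≤ N) (t : ℕ) :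
    ∀ k k' n n' : ℕ, K + 1 - (k + k') ≤ t → 1 ≤ k → 1 ≤ k' → Odd n → Odd n' → n < n' →
      n' ≤ G → Lv N a Q n k → Lv N a Q n' k' → (P K k k').card + 1 ≤ n' - n := by
  have hQ1 : 1 ≤ Q := by
    have : (0 : ℤ) ≤ 2 * (G : ℤ) ^ 2 := by positivity
    linarith
  induction t with
  | zero =>
    intro k k' n n' ht _ _ _ _ hlt _ _ _
    rw [P_empty (by omega : K < k + k')]
    omega
  | succ t ih =>
    intro k k' n n' ht hk hk' hn hn' hlt hG l1 l2
    rcases Nat.lt_or_ge K (k + k') with hc | hc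
    · rw [P_empty hc]
      omega
    · have hKs : (G : ℤ) * Q ^ (k + k' - 1) ≤ N := by
        refine le_trans (mul_le_mul_of_nonneg_left ?_ (by positivity)) hK
        exact pow_le_pow_right₀ hQ1 (by omega)
      obtain ⟨x, hx, hx1, hx2, lx⟩ := between h hQ hNG hk hk' hKs hn hn' hlt hG l1 l2
      have i1 := ih k (k + k') n x (by omega) hk (by omega) hn hx hx1 (by omega) l1 lx
      have i2 := ih (k + k') k' x n' (by omega) (by omega) hk' hx hn' hx2 hG lx l2
      have := P_rec K k k'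
      omega

theorem top (h : Desc N G a) {Q : ℤ} (hQ : 2 * (G : ℤ) ^ 2 < Q) (hG2 : 2 ≤ G) (hN : 4 ≤ N)
    (hK : (G : ℤ) * Q ≤ N) : ∃ x, Odd x ∧ 1 < x ∧ x ≤ G ∧ Lv N a Q x 2 := by
  by_contra hcon
  push Not at hcon
  have hQ0 : 0 < Q := lt_of_le_of_lt (by positivity) hQ
  have hall : ∀ l, 1 < l → l ≤ 1 + (G - 1) → g N a l * Q ≤ N := by
    intro l hl1 hl2
    rcases Nat.even_or_odd l with he | ho
    · have e1 := g_even (N := N) (a := a) (by omega : 2 ≤ l) he
      have e2 : (l : ℤ) ≤ G := by exact_mod_cast (by omega : l ≤ G)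
      exact le_trans (mul_le_mul_of_nonneg_right (e1.trans e2) hQ0.le) hK
    · have e1 := hcon l ho hl1 (by omega)
      unfold Lv gg at e1
      rw [if_neg (by omega)] at e1
      simpa using (not_le.mp e1).le
  have hS := drop_le h (le_refl 1) (G - 1) hall
  rw [show 1 + (G - 1) = G by omega, h.fin, h.start] at hS
  have hNz : (4 : ℤ) ≤ N := by exact_mod_cast hN
  have hGz : (2 : ℤ) ≤ G := by exact_mod_cast hG2
  have e1 : ((G - 1 : ℕ) : ℤ) * N ≤ G * N :=
    mul_le_mul_of_nonneg_right (by exact_mod_cast (by omega : G - 1 ≤ G)) (by linarith)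
  have e2 : ((N : ℤ) - 2) * (2 * (G : ℤ) ^ 2) < ((N : ℤ) - 2) * Q :=
    mul_lt_mul_of_pos_left hQ (by linarith)
  have e3 : (G : ℤ) * N ≤ (N - 2) * (2 * (G : ℤ) ^ 2) := by
    have e4 : (N : ℤ) ≤ 2 * (N - 2) := by linarith
    calc (G : ℤ) * N ≤ G * (2 * (N - 2)) := mul_le_mul_of_nonneg_left e4 (by linarith)
      _ = (2 * (N - 2)) * (G * 1) := by ring
      _ ≤ (2 * (N - 2)) * (G * G) :=
        mul_le_mul_of_nonneg_left (mul_le_mul_of_nonneg_left (by linarith) (by linarith))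
          (by linarith)
      _ = _ := by ring
  simp only [sub_zero] at hS
  linarith

theorem main (h : Desc N G a) (hG2 : 2 ≤ G) (hNG : G ≤ N) (hN : 4 ≤ N) (K : ℕ) (hK2 : 2 ≤ K)
    (hK : (G : ℤ) * (3 * (G : ℤ) ^ 2) ^ (K - 1) ≤ N) : ((K / 3 : ℕ) : ℝ) ^ 2 / 4 ≤ G := by
  have hGz : (2 : ℤ) ≤ G := by exact_mod_cast hG2
  have hQ : 2 * (G : ℤ) ^ 2 < 3 * (G : ℤ) ^ 2 := by
    have : 0 < (G : ℤ) ^ 2 := by positivity
    linarith
  have hQ1 : 1 ≤ 3 * (G : ℤ) ^ 2 := by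
    have : 0 < (G : ℤ) ^ 2 := by positivity
    linarith
  obtain ⟨x, hx, hx1, hxG, lx⟩ := top h hQ hG2 hN (by
    refine le_trans (mul_le_mul_of_nonneg_left ?_ (by positivity)) hK
    calc 3 * (G : ℤ) ^ 2 = (3 * (G : ℤ) ^ 2) ^ 1 := (pow_one _).symm
      _ ≤ _ := pow_le_pow_right₀ hQ1 (by omega))
  have l1 : Lv N a (3 * (G : ℤ) ^ 2) 1 1 := by
    unfold Lv gg
    simp
  have h1 := gap h hQ hNG K hK (K + 1) 1 2 1 x (by omega) le_rfl (by omega) odd_one hx hx1 hxG
    l1 lx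
  have h2 := P_large K
  have h3 : ((P K 1 2).card : ℝ) ≤ G := by exact_mod_cast (by omega : (P K 1 2).card ≤ G)
  linarith

end R754.QL
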